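import Mathlib.AlgebraicGeometry.EllipticCurve.VariableChange
import Mathlib.RingTheory.IntegralClosure.IntegrallyClosed
import Mathlib.Tactic

/-!
# Integrality of changes of variables between Weierstrass equations with unit discriminants
-/

set_option autoImplicit false

open Polynomial

namespace Pool.Agent.Y349.H

section

variable {O M : Type} [CommRing O] [IsDomain O] [IsIntegrallyClosed O] [Field M]
  [Algebra O M] [IsFractionRing O M]

/-- an element of the fraction field satisfying a monic equation of degree 2 -/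
lemma int2 (x : M) (b c : O) (h : x ^ 2 + algebraMap O M b * x + algebraMap O M c = 0) :
    ∃ y : O, algebraMap O M y = x := by
  refine IsIntegrallyClosed.isIntegral_iff.1 ⟨X ^ 2 + C b * X + C c, ?_, ?_⟩
  · monicity!
  · simpa [eval₂_add, eval₂_mul, eval₂_pow] using h

/-- an element of the fraction field satisfying a monic equation of degree 4 -/
lemma int4 (x : M) (b c d : O)
    (h : x ^ 4 + algebraMap O M b * x ^ 2 + algebraMap O M c * x + algebraMap O M d = 0) :
    ∃ y : O, algebraMap O M y = x := by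
  refine IsIntegrallyClosed.isIntegral_iff.1 ⟨X ^ 4 + C b * X ^ 2 + C c * X + C d, ?_, ?_⟩
  · monicity!
  · simpa [eval₂_add, eval₂_mul, eval₂_pow] using h

/-- an element of the fraction field a power of which is in `O` -/
lemma int12 (x : M) (b : O) (h : x ^ 12 = algebraMap O M b) :
    ∃ y : O, algebraMap O M y = x := by
  refine IsIntegrallyClosed.isIntegral_iff.1 ⟨X ^ 12 - C b, ?_, ?_⟩
  · monicity!
  · simp [h]

theorem ecint (W W' : WeierstrassCurve O) (hW : IsUnit W.Δ) (hW' : IsUnit W'.Δ)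
    (C : WeierstrassCurve.VariableChange M)
    (hC : W.map (algebraMap O M) = C • W'.map (algebraMap O M)) :
    ∃ C' : WeierstrassCurve.VariableChange O, C'.map (algebraMap O M) = C := by
  have hinj : Function.Injective (algebraMap O M) := IsFractionRing.injective O M
  obtain ⟨w, hw⟩ := hW
  obtain ⟨w', hw'⟩ := hW'
  have huu : (C.u : M) * ((C.u⁻¹ : Mˣ) : M) = 1 := by simp
  have hΔ := congrArg WeierstrassCurve.Δ hC
  have ha1 := congrArg WeierstrassCurve.a₁ hC
  have ha2 := congrArg WeierstrassCurve.a₂ hC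
  have ha3 := congrArg WeierstrassCurve.a₃ hC
  have ha6 := congrArg WeierstrassCurve.a₆ hC
  have hb6 := congrArg WeierstrassCurve.b₆ hC
  have hb8 := congrArg WeierstrassCurve.b₈ hC
  rw [WeierstrassCurve.variableChange_Δ, WeierstrassCurve.map_Δ, WeierstrassCurve.map_Δ] at hΔ
  rw [WeierstrassCurve.variableChange_b₆, WeierstrassCurve.map_b₆, WeierstrassCurve.map_b₆,
    WeierstrassCurve.map_b₄, WeierstrassCurve.map_b₂] at hb6
  rw [WeierstrassCurve.variableChange_b₈, WeierstrassCurve.map_b₈, WeierstrassCurve.map_b₈,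
    WeierstrassCurve.map_b₆, WeierstrassCurve.map_b₄, WeierstrassCurve.map_b₂] at hb8
  rw [WeierstrassCurve.variableChange_a₂, WeierstrassCurve.map_a₂, WeierstrassCurve.map_a₂,
    WeierstrassCurve.map_a₁] at ha2
  rw [WeierstrassCurve.variableChange_a₆, WeierstrassCurve.map_a₆, WeierstrassCurve.map_a₆,
    WeierstrassCurve.map_a₄, WeierstrassCurve.map_a₂, WeierstrassCurve.map_a₁,
    WeierstrassCurve.map_a₃] at ha6
  generalize hu : (C.u : M) = u at *
  generalize hv : ((C.u⁻¹ : Mˣ) : M) = v at *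
  -- the unit
  have hww : algebraMap O M (w : O) * algebraMap O M ((w⁻¹ : Oˣ) : O) = 1 := by
    rw [← map_mul]; simp
  have hww' : algebraMap O M (w' : O) * algebraMap O M ((w'⁻¹ : Oˣ) : O) = 1 := by
    rw [← map_mul]; simp
  rw [← hw, ← hw'] at hΔ
  have huv12 : u ^ 12 * v ^ 12 = 1 := by rw [← mul_pow, huu, one_pow]
  obtain ⟨v0, hv0⟩ := int12 (O := O) v ((w : O) * ((w'⁻¹ : Oˣ) : O)) (by
    rw [map_mul, hΔ]
    linear_combination (-v ^ 12) * hww')
  obtain ⟨u0, hu0⟩ := int12 (O := O) u ((w' : O) * ((w⁻¹ : Oˣ) : O)) (by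
    rw [map_mul]
    linear_combination (-u ^ 12) * hww + (u ^ 12 * algebraMap O M ((w⁻¹ : Oˣ) : O)) * hΔ
      + (algebraMap O M (w' : O) * algebraMap O M ((w⁻¹ : Oˣ) : O)) * huv12)
  have huv0 : u0 * v0 = 1 := by
    apply hinj
    rw [map_mul, hu0, hv0, huu, map_one]
  -- `r`
  have e6 : u ^ 6 * algebraMap O M W.b₆ = algebraMap O M W'.b₆ + 2 * C.r * algebraMap O M W'.b₄
      + C.r ^ 2 * algebraMap O M W'.b₂ + 4 * C.r ^ 3 := by
    rw [hb6]
    have : u ^ 6 * v ^ 6 = 1 := by rw [← mul_pow, huu, one_pow]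
    linear_combination (algebraMap O M W'.b₆ + 2 * C.r * algebraMap O M W'.b₄
      + C.r ^ 2 * algebraMap O M W'.b₂ + 4 * C.r ^ 3) * this
  have e8 : u ^ 8 * algebraMap O M W.b₈ = algebraMap O M W'.b₈ + 3 * C.r * algebraMap O M W'.b₆
      + 3 * C.r ^ 2 * algebraMap O M W'.b₄ + C.r ^ 3 * algebraMap O M W'.b₂ + 3 * C.r ^ 4 := by
    rw [hb8]
    have : u ^ 8 * v ^ 8 = 1 := by rw [← mul_pow, huu, one_pow]
    linear_combination (algebraMap O M W'.b₈ + 3 * C.r * algebraMap O M W'.b₆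
      + 3 * C.r ^ 2 * algebraMap O M W'.b₄ + C.r ^ 3 * algebraMap O M W'.b₂ + 3 * C.r ^ 4) * this
  obtain ⟨r0, hr0⟩ := int4 (O := O) C.r (-W'.b₄) (-(2 * W'.b₆ + u0 ^ 6 * W.b₆))
    (-(W'.b₈ - u0 ^ 8 * W.b₈)) (by
      simp only [map_neg, map_add, map_sub, map_mul, map_pow, hu0, map_ofNat]
      linear_combination C.r * e6 * (-1) + e8)
  -- `s`
  have e2 : u ^ 2 * algebraMap O M W.a₂ = algebraMap O M W'.a₂ - C.s * algebraMap O M W'.a₁
      + 3 * C.r - C.s ^ 2 := by
    rw [ha2]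
    have : u ^ 2 * v ^ 2 = 1 := by rw [← mul_pow, huu, one_pow]
    linear_combination (algebraMap O M W'.a₂ - C.s * algebraMap O M W'.a₁
      + 3 * C.r - C.s ^ 2) * this
  obtain ⟨s0, hs0⟩ := int2 (O := O) C.s W'.a₁ (-(W'.a₂ + 3 * r0 - u0 ^ 2 * W.a₂)) (by
      simp only [map_neg, map_add, map_sub, map_mul, map_pow, hu0, hr0, map_ofNat]
      linear_combination e2)
  -- `t`
  have e66 : u ^ 6 * algebraMap O M W.a₆ = algebraMap O M W'.a₆ + C.r * algebraMap O M W'.a₄
      + C.r ^ 2 * algebraMap O M W'.a₂ + C.r ^ 3 - C.t * algebraMap O M W'.a₃ - C.t ^ 2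
      - C.r * C.t * algebraMap O M W'.a₁ := by
    rw [ha6]
    have : u ^ 6 * v ^ 6 = 1 := by rw [← mul_pow, huu, one_pow]
    linear_combination (algebraMap O M W'.a₆ + C.r * algebraMap O M W'.a₄
      + C.r ^ 2 * algebraMap O M W'.a₂ + C.r ^ 3 - C.t * algebraMap O M W'.a₃ - C.t ^ 2
      - C.r * C.t * algebraMap O M W'.a₁) * this
  obtain ⟨t0, ht0⟩ := int2 (O := O) C.t (W'.a₃ + r0 * W'.a₁)
    (-(W'.a₆ + r0 * W'.a₄ + r0 ^ 2 * W'.a₂ + r0 ^ 3 - u0 ^ 6 * W.a₆)) (by
      simp only [map_neg, map_add, map_sub, map_mul, map_pow, hu0, hr0]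
      linear_combination e66)
  refine ⟨⟨⟨u0, v0, huv0, by rw [mul_comm]; exact huv0⟩, r0, s0, t0⟩, ?_⟩
  refine WeierstrassCurve.VariableChange.ext ?_ hr0 hs0 ht0
  exact Units.ext (hu0.trans hu.symm)

end

end Pool.Agent.Y349.H
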