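import Pool.Agent.Y223.G.Stm13
import Pool.Agent.Y349.H.ECInt0

/-!
# `S_ECINT`: integrality of changes of variables
-/

set_option autoImplicit false

namespace Pool.Agent.Y349.H

theorem t_ECINT : Pool.Agent.Y223.G.S_ECINT := by
  intro O M _ _ _ _ _ _ W W' hW hW' C hC
  exact ecint W W' hW hW' C hC

end Pool.Agent.Y349.H
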